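import Pool.Agent.Cofin67.Defs

/-!
General lemmas on chains: thinning a weakly increasing chain, and cofinStar = add.
-/

namespace Pool.Agent.Cofin67

open Set Cardinal Ordinal

variable {X : Type}

theorem thin (I : Set (Set X)) (γ : Ordinal.{0}) (F : Ordinal.{0} → Set (Set X))
    (hmono : ∀ α β, α ≤ β → β < γ → F α ⊆ F β) (hne : ∀ α < γ, F α ≠ I)
    (hun : I = {A | ∃ α < γ, A ∈ F α}) (hγ : 0 < γ) :
    ∃ γ' ≤ γ, Order.IsSuccLimit γ' ∧ ∃ F' : Ordinal.{0} → Set (Set X), IsChainOf I γ' F' ∧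
      (∀ α < γ', ∃ β < γ, F' α = F β) ∧ F' 0 = F 0 := by
  classical
  set S : Set Ordinal.{0} := {α | γ ≤ α ∨ ∀ β < α, F β ≠ F α} with hS
  have hunb : ¬ BddAbove S := by
    rintro ⟨b, hb⟩
    have h1 : max γ (b + 1) ∈ S := Or.inl (le_max_left _ _)
    have h2 := hb h1
    have h3 : b + 1 ≤ b := le_trans (le_max_right _ _) h2
    exact absurd h3 (not_le.mpr (lt_add_of_pos_right b one_pos))
  have hγS : γ ∈ S := Or.inl le_rfl
  obtain ⟨γ', hγ'⟩ := enumOrd_surjective hunb hγS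
  have hsm := enumOrd_strictMono hunb
  have hlt : ∀ α < γ', enumOrd S α < γ := fun α hα => by
    have := hsm hα
    rwa [hγ'] at this
  have hmem : ∀ α < γ', ∀ β < enumOrd S α, F β ≠ F (enumOrd S α) := by
    intro α hα
    have h1 := enumOrd_mem hunb α
    rcases h1 with h1 | h1
    · exact absurd (hlt α hα) (not_lt.mpr h1)
    · exact h1
  -- representatives
  have hrep : ∀ α < γ, ∃ δ < γ', enumOrd S δ ≤ α ∧ F (enumOrd S δ) = F α := by
    intro α hα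
    have hex : ∃ β, F β = F α := ⟨α, rfl⟩
    obtain ⟨β, hβ, hmin⟩ := WellFounded.has_min (wellFounded_lt (α := Ordinal.{0})) {β | F β = F α} hex
    have hβα : β ≤ α := not_lt.mp (hmin α rfl)
    have hβS : β ∈ S := Or.inr (fun δ hδ h => hmin δ (h.trans hβ) hδ)
    obtain ⟨δ, hδ⟩ := enumOrd_surjective hunb hβS
    refine ⟨δ, ?_, ?_, ?_⟩
    · have : enumOrd S δ < enumOrd S γ' := by
        rw [hδ, hγ']; exact lt_of_le_of_lt hβα hα
      exact (hsm.lt_iff_lt).mp this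
    · rw [hδ]; exact hβα
    · rw [hδ]; exact hβ
  have h0 : enumOrd S 0 = 0 := by
    rw [enumOrd_zero]
    have : (0 : Ordinal) ∈ S := Or.inr (fun β hβ => absurd hβ (not_lt.mpr zero_le))
    exact le_antisymm (csInf_le' this) zero_le
  refine ⟨γ', ?_, ?_, fun α => F (enumOrd S α), ⟨?_, ?_⟩, ?_, ?_⟩
  · have := le_enumOrd_self hunb (a := γ')
    rwa [hγ'] at this
  · refine ⟨?_, ?_⟩
    · intro hmin
      have hz : γ' = 0 := by
        have := isMin_iff_eq_bot.mp hmin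
        simpa using this
      rw [hz, h0] at hγ'
      exact absurd hγ'.symm hγ.ne'
    · apply Order.isSuccPrelimit_of_succ_lt
      intro δ hδ
      by_contra hcon
      have heq : γ' ≤ Order.succ δ := not_lt.mp hcon
      refine hne _ (hlt δ hδ) ?_
      apply le_antisymm
      · intro A hA
        rw [hun]
        exact ⟨_, hlt δ hδ, hA⟩
      · intro A hA
        rw [hun] at hA
        obtain ⟨α, hα, hAα⟩ := hA
        obtain ⟨ε, hε, -, hεF⟩ := hrep α hα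
        have hεδ : ε ≤ δ := Order.lt_succ_iff.mp (lt_of_lt_of_le hε heq)
        rw [← hεF] at hAα
        exact hmono _ _ (hsm.monotone hεδ) (hlt δ hδ) hAα
  · intro α β hαβ hβ
    refine (Set.ssubset_iff_subset_ne).mpr ⟨hmono _ _ (hsm hαβ).le (hlt β hβ), ?_⟩
    exact hmem β hβ _ (hsm hαβ)
  · apply le_antisymm
    · intro A hA
      rw [hun] at hA
      obtain ⟨α, hα, hAα⟩ := hA
      obtain ⟨δ, hδ, -, hδF⟩ := hrep α hα
      exact ⟨δ, hδ, by show A ∈ F (enumOrd S δ); rw [hδF]; exact hAα⟩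
    · rintro A ⟨α, hα, hA⟩
      rw [hun]
      exact ⟨_, hlt α hα, hA⟩
  · intro α hα
    exact ⟨_, hlt α hα, rfl⟩
  · simp only [h0]

/-- Members of a chain of limit length are proper. -/
theorem IsChainOf.ne {I : Set (Set X)} {γ : Ordinal.{0}} {F : Ordinal.{0} → Set (Set X)}
    (h : IsChainOf I γ F) (hγ : Order.IsSuccLimit γ) {α : Ordinal.{0}} (hα : α < γ) :
    F α ⊂ I := by
  have h1 : F α ⊂ F (Order.succ α) := h.1 _ _ (Order.lt_succ α) (hγ.succ_lt hα)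
  refine lt_of_lt_of_le h1 ?_
  intro A hA
  rw [h.2]
  exact ⟨_, hγ.succ_lt hα, hA⟩

theorem IsChainOf.mono {I : Set (Set X)} {γ : Ordinal.{0}} {F : Ordinal.{0} → Set (Set X)}
    (h : IsChainOf I γ F) {α β : Ordinal.{0}} (hαβ : α ≤ β) (hβ : β < γ) :
    F α ⊆ F β := by
  rcases hαβ.lt_or_eq with h1 | h1
  · exact (h.1 _ _ h1 hβ).1
  · rw [h1]


/-- Enumeration of a set by the ordinals below its initial ordinal. -/
theorem exists_enum_inj {Y : Type} [Inhabited Y] (S : Set Y) :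
    ∃ a : Ordinal.{0} → Y, (∀ α < (#S).ord, a α ∈ S) ∧ (∀ y ∈ S, ∃ α < (#S).ord, a α = y) ∧
      ∀ α < (#S).ord, ∀ β < (#S).ord, a α = a β → α = β := by
  classical
  have hcard : #((#S).ord.ToType) = #S := by
    rw [Cardinal.mk_toType, card_ord]
  obtain ⟨e⟩ := Cardinal.eq.mp hcard
  refine ⟨fun α => if h : α < (#S).ord then (e (Ordinal.ToType.mk ⟨α, h⟩) : Y) else default,
    ?_, ?_, ?_⟩
  · intro α hα
    simp only [hα, dif_pos]
    exact (e _).2
  · intro y hy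
    obtain ⟨t, ht⟩ := e.surjective ⟨y, hy⟩
    obtain ⟨⟨α, hα⟩, hαt⟩ := (Ordinal.ToType.mk (o := (#S).ord)).surjective t
    refine ⟨α, hα, ?_⟩
    have hα' : α < (#S).ord := hα
    simp only [hα', dif_pos]
    rw [hαt, ht]
  · intro α hα β hβ h
    simp only [hα, hβ, dif_pos] at h
    have h2 := e.injective (Subtype.ext h)
    have h3 := (Ordinal.ToType.mk (o := (#S).ord)).injective h2
    exact congrArg Subtype.val h3

theorem exists_enum {Y : Type} [Inhabited Y] (S : Set Y) :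
    ∃ a : Ordinal.{0} → Y, (∀ α < (#S).ord, a α ∈ S) ∧ ∀ y ∈ S, ∃ α < (#S).ord, a α = y := by
  obtain ⟨a, h1, h2, -⟩ := exists_enum_inj S
  exact ⟨a, h1, h2⟩

theorem mk_image_Iio_le {Y : Type} (a : Ordinal.{0} → Y) (γ : Ordinal.{0}) :
    #(a '' Set.Iio γ) ≤ γ.card := by
  have h1 := Cardinal.mk_image_le_lift (f := a) (s := Set.Iio γ)
  rw [Cardinal.mk_Iio_ordinal, Cardinal.lift_id'.{0,1}] at h1
  rwa [Cardinal.lift_le] at h1

theorem add_mem {I : Set (Set X)} (hI : ⋃₀ I ∉ I) :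
    ∃ 𝒜 : Set (Set X), 𝒜 ⊆ I ∧ ⋃₀ 𝒜 ∉ I ∧ add I = #𝒜 := by
  have h := csInf_mem (s := {κ : Cardinal.{0} | ∃ 𝒜 : Set (Set X), 𝒜 ⊆ I ∧ ⋃₀ 𝒜 ∉ I ∧ κ = #𝒜})
    ⟨#I, I, subset_rfl, hI, rfl⟩
  exact h

theorem mem_of_card_lt_add {I : Set (Set X)} {𝒜 : Set (Set X)} (h𝒜 : 𝒜 ⊆ I)
    (hc : #𝒜 < add I) : ⋃₀ 𝒜 ∈ I := by
  by_contra hcon
  have : add I ≤ #𝒜 := csInf_le' ⟨𝒜, h𝒜, hcon, rfl⟩
  exact absurd hc (not_lt.mpr this)

theorem IsIdeal.sUnion_finite {I : Set (Set X)} (hI : IsIdeal I) {𝒜 : Set (Set X)}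
    (hf : 𝒜.Finite) (h𝒜 : 𝒜 ⊆ I) : ⋃₀ 𝒜 ∈ I := by
  revert h𝒜
  induction 𝒜, hf using Set.Finite.induction_on with
  | empty => intro _; simpa using hI.1
  | insert _ _ ih =>
    intro h
    rw [Set.sUnion_insert]
    exact hI.2.2 _ (h (Set.mem_insert _ _)) _ (ih (fun x hx => h (Set.mem_insert_of_mem _ hx)))

theorem aleph0_le_add {I : Set (Set X)} (hI : IsIdeal I) (hU : ⋃₀ I ∉ I) : ℵ₀ ≤ add I := by
  by_contra hcon
  obtain ⟨𝒜, h1, h2, h3⟩ := add_mem hU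
  have hlt : #𝒜 < ℵ₀ := by rw [← h3]; exact not_le.mp hcon
  have hfin : 𝒜.Finite := Cardinal.lt_aleph0_iff_set_finite.mp hlt
  exact h2 (hI.sUnion_finite hfin h1)

/-- The additivity of a sigma-ideal is uncountable. -/
theorem aleph0_lt_add {I : Set (Set X)} (hI : IsSigmaIdeal I) (hU : ⋃₀ I ∉ I) : ℵ₀ < add I := by
  by_contra hcon
  obtain ⟨𝒜, h1, h2, h3⟩ := add_mem hU
  have hle : #𝒜 ≤ ℵ₀ := by rw [← h3]; exact not_lt.mp hcon
  have hc : 𝒜.Countable := Cardinal.le_aleph0_iff_set_countable.mp hle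
  apply h2
  rcases 𝒜.eq_empty_or_nonempty with he | hne
  · rw [he]; simpa using hI.1
  · obtain ⟨f, hf⟩ := hc.exists_eq_range hne
    rw [hf, Set.sUnion_range]
    exact hI.2.2 f (fun n => h1 (by rw [hf]; exact ⟨n, rfl⟩))

theorem IsSigmaIdeal.isIdeal {I : Set (Set X)} (hI : IsSigmaIdeal I) : IsIdeal I := by
  refine ⟨hI.1, hI.2.1, fun A hA B hB => ?_⟩
  have h := hI.2.2 (fun n => if n = 0 then A else B) (fun n => by
    by_cases hn : n = 0
    · simp [hn, hA]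
    · simp [hn, hB])
  refine hI.2.1 _ h _ ?_
  rintro x (hx | hx)
  · exact Set.mem_iUnion.mpr ⟨0, by simpa using hx⟩
  · exact Set.mem_iUnion.mpr ⟨1, by simpa using hx⟩

/-- Upper bound for cofinStar. -/
theorem cofinStar_le_add {I : Set (Set X)} (hI : IsIdeal I) (hU : ⋃₀ I ∉ I) :
    cofinStar I ≤ ((add I).ord : WithTop Ordinal.{0}) := by
  obtain ⟨𝒜, h1, h2, h3⟩ := add_mem hU
  obtain ⟨a, ha1, ha2⟩ := exists_enum 𝒜
  rw [← h3] at ha1 ha2
  have hlim : Order.IsSuccLimit (add I).ord := isSuccLimit_ord (aleph0_le_add hI hU)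
  set U : Ordinal.{0} → Set X := fun α => ⋃₀ (a '' Set.Iio α) with hUdef
  have hUmono : ∀ α β, α ≤ β → U α ⊆ U β := by
    intro α β hαβ
    exact Set.sUnion_subset_sUnion (Set.image_mono (Set.Iio_subset_Iio hαβ))
  have hUI : ∀ α < (add I).ord, U α ∈ I := by
    intro α hα
    apply mem_of_card_lt_add
    · rintro _ ⟨β, hβ, rfl⟩
      exact h1 (ha1 β (lt_trans hβ hα))
    · exact lt_of_le_of_lt (mk_image_Iio_le a α) (lt_ord.mp hα)
  set F : Ordinal.{0} → Set (Set X) := fun α => {A | A ∈ I ∧ ¬ U α ⊆ A} with hF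
  have c1 : ∀ α β, α ≤ β → β < (add I).ord → F α ⊆ F β := by
    intro α β hαβ _ A hA
    exact ⟨hA.1, fun h => hA.2 ((hUmono α β hαβ).trans h)⟩
  have c2 : ∀ α < (add I).ord, F α ≠ I := by
    intro α hα h
    have : U α ∈ F α := by rw [h]; exact hUI α hα
    exact this.2 subset_rfl
  have c3 : I = {A | ∃ α < (add I).ord, A ∈ F α} := by
    apply le_antisymm
    · intro A hA
      by_contra hcon
      apply h2
      refine hI.2.1 A hA _ ?_
      intro x hx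
      obtain ⟨B, hB, hxB⟩ := hx
      obtain ⟨α, hα, rfl⟩ := ha2 B hB
      have hs : U (Order.succ α) ⊆ A := by
        by_contra h
        exact hcon ⟨_, hlim.succ_lt hα, hA, h⟩
      exact hs ⟨a α, ⟨α, Order.lt_succ α, rfl⟩, hxB⟩
    · rintro A ⟨α, -, hA⟩
      exact hA.1
  obtain ⟨γ', hγ', hlim', F', hch, hF', -⟩ := thin I (add I).ord F c1 c2 c3 hlim.bot_lt
  refine le_trans (csInf_le (OrderBot.bddBelow _) (a := (γ' : WithTop Ordinal.{0})) ?_)
    (WithTop.coe_le_coe.mpr hγ')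
  refine ⟨γ', rfl, hlim', F', hch, ?_⟩
  intro α hα
  obtain ⟨β, hβ, hβF⟩ := hF' α hα
  rw [hβF]
  intro A hA B hB
  exact ⟨hI.2.1 A hA.1 B hB, fun h => hA.2 (h.trans hB)⟩

/-- Lower bound: any chain of hereditary families has length at least the additivity. -/
theorem add_le_of_chain {I : Set (Set X)} {γ : Ordinal.{0}}
    {F : Ordinal.{0} → Set (Set X)} (hγ : Order.IsSuccLimit γ) (hch : IsChainOf I γ F)
    (hher : ∀ α < γ, Hereditary (F α)) : (add I).ord ≤ γ := by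
  classical
  by_contra hcon
  have hlt : γ.card < add I := lt_ord.mp (not_le.mp hcon)
  have hex : ∀ α : Ordinal.{0}, ∃ A : Set X, α < γ → A ∈ F (Order.succ α) ∧ A ∉ F α := by
    intro α
    by_cases hα : α < γ
    · obtain ⟨A, hA⟩ := Set.exists_of_ssubset (hch.1 _ _ (Order.lt_succ α) (hγ.succ_lt hα))
      exact ⟨A, fun _ => hA⟩
    · exact ⟨∅, fun h => absurd h hα⟩
  choose A hA using hex
  have hmem : ⋃₀ (A '' Set.Iio γ) ∈ I := by
    apply mem_of_card_lt_add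
    · rintro _ ⟨β, hβ, rfl⟩
      rw [hch.2]
      exact ⟨_, hγ.succ_lt hβ, (hA β hβ).1⟩
    · exact lt_of_le_of_lt (mk_image_Iio_le A γ) hlt
  rw [hch.2] at hmem
  obtain ⟨β, hβ, hmemβ⟩ := hmem
  apply (hA β hβ).2
  exact hher β hβ _ hmemβ _ (Set.subset_sUnion_of_mem ⟨β, hβ, rfl⟩)

theorem add_le_cofinStar (I : Set (Set X)) :
    ((add I).ord : WithTop Ordinal.{0}) ≤ cofinStar I := by
  apply le_sInf
  rintro _ ⟨γ, rfl, hγ, F, hch, hF⟩
  exact WithTop.coe_le_coe.mpr (add_le_of_chain hγ hch hF)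

theorem cofinStar_eq_add {I : Set (Set X)} (hI : IsIdeal I) (hU : ⋃₀ I ∉ I) :
    cofinStar I = ((add I).ord : WithTop Ordinal.{0}) :=
  le_antisymm (cofinStar_le_add hI hU) (add_le_cofinStar I)

end Pool.Agent.Cofin67
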