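import Mathlib

/-!
Definitions for the variants of cofin of an ideal (problem MP_66ab92_lc).
-/

namespace Pool.Agent.Cofin67

open Set Cardinal Ordinal

variable {X : Type}

/-- `J` is closed under taking subsets. -/
def Hereditary (J : Set (Set X)) : Prop := ∀ A ∈ J, ∀ B, B ⊆ A → B ∈ J

/-- `J` is an ideal of subsets of `X`. -/
def IsIdeal (J : Set (Set X)) : Prop :=
  ∅ ∈ J ∧ Hereditary J ∧ ∀ A ∈ J, ∀ B ∈ J, A ∪ B ∈ J

/-- `J` is a sigma-ideal of subsets of `X`. -/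
def IsSigmaIdeal (J : Set (Set X)) : Prop :=
  ∅ ∈ J ∧ Hereditary J ∧ ∀ A : ℕ → Set X, (∀ n, A n ∈ J) → (⋃ n, A n) ∈ J

/-- `J` is a Borel sigma-ideal on the Cantor space: a sigma-ideal each of whose members is
contained in a Borel member. -/
def IsBorelSigmaIdeal (J : Set (Set (ℕ → Bool))) : Prop :=
  IsSigmaIdeal J ∧ ∀ A ∈ J, ∃ B ∈ J, A ⊆ B ∧ @MeasurableSet (ℕ → Bool) (borel (ℕ → Bool)) B

/-- The families `F α`, `α < γ`, strictly increase and their union is `I`. -/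
def IsChainOf (I : Set (Set X)) (γ : Ordinal.{0}) (F : Ordinal.{0} → Set (Set X)) : Prop :=
  (∀ α β, α < β → β < γ → F α ⊂ F β) ∧ I = {A | ∃ α < γ, A ∈ F α}

/-- The least limit length of a chain of sigma-ideals with union `I`; `⊤` if there is none. -/
noncomputable def cofin (I : Set (Set X)) : WithTop Ordinal.{0} :=
  sInf {δ | ∃ γ : Ordinal.{0}, δ = (γ : WithTop Ordinal.{0}) ∧ Order.IsSuccLimit γ ∧
    ∃ F : Ordinal.{0} → Set (Set X), IsChainOf I γ F ∧ ∀ α < γ, IsSigmaIdeal (F α)}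

/-- As `cofin`, with ideals in place of sigma-ideals. -/
noncomputable def cofinMinus (I : Set (Set X)) : WithTop Ordinal.{0} :=
  sInf {δ | ∃ γ : Ordinal.{0}, δ = (γ : WithTop Ordinal.{0}) ∧ Order.IsSuccLimit γ ∧
    ∃ F : Ordinal.{0} → Set (Set X), IsChainOf I γ F ∧ ∀ α < γ, IsIdeal (F α)}

/-- As `cofin`, with families closed under subsets in place of sigma-ideals. -/
noncomputable def cofinStar (I : Set (Set X)) : WithTop Ordinal.{0} :=
  sInf {δ | ∃ γ : Ordinal.{0}, δ = (γ : WithTop Ordinal.{0}) ∧ Order.IsSuccLimit γ ∧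
    ∃ F : Ordinal.{0} → Set (Set X), IsChainOf I γ F ∧ ∀ α < γ, Hereditary (F α)}

/-- As `cofin`, with the extra demand that the first sigma-ideal holds all singletons. -/
noncomputable def cofinPlus (I : Set (Set X)) : WithTop Ordinal.{0} :=
  sInf {δ | ∃ γ : Ordinal.{0}, δ = (γ : WithTop Ordinal.{0}) ∧ Order.IsSuccLimit γ ∧
    ∃ F : Ordinal.{0} → Set (Set X), IsChainOf I γ F ∧ (∀ α < γ, IsSigmaIdeal (F α)) ∧
      ∀ x : X, {x} ∈ F 0}

/-- The additivity of `I`: the least size of a subfamily of `I` whose union is not in `I`. -/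
noncomputable def add (I : Set (Set X)) : Cardinal.{0} :=
  sInf {κ | ∃ 𝒜 : Set (Set X), 𝒜 ⊆ I ∧ ⋃₀ 𝒜 ∉ I ∧ κ = #𝒜}

end Pool.Agent.Cofin67
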