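import Mathlib

/-!
The bounding number, the dominating number and the groupwise density number.
-/

namespace Pool.Agent.Cofin67

open Set Cardinal

/-- `f` is eventually at most `g`. -/
def EvLe (f g : ℕ → ℕ) : Prop := ∃ N, ∀ n ≥ N, f n ≤ g n

/-- The bounding number. -/
noncomputable def bNum : Cardinal.{0} :=
  sInf {κ | ∃ B : Set (ℕ → ℕ), (¬ ∃ g, ∀ f ∈ B, EvLe f g) ∧ κ = #B}

/-- The dominating number. -/
noncomputable def dNum : Cardinal.{0} :=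
  sInf {κ | ∃ D : Set (ℕ → ℕ), (∀ f, ∃ g ∈ D, EvLe f g) ∧ κ = #D}

/-- `G` is a groupwise dense family of infinite subsets of `ℕ`. -/
def GroupwiseDense (G : Set (Set ℕ)) : Prop :=
  (∀ A ∈ G, A.Infinite) ∧
  (∀ A ∈ G, ∀ B : Set ℕ, B.Infinite → (B \ A).Finite → B ∈ G) ∧
  ∀ i : ℕ → ℕ, StrictMono i → i 0 = 0 →
    ∃ K : Set ℕ, K.Infinite ∧ {m | ∃ k ∈ K, i k ≤ m ∧ m < i (k + 1)} ∈ G

/-- The groupwise density number. -/
noncomputable def gNum : Cardinal.{0} :=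
  sInf {κ | ∃ 𝒢 : Set (Set (Set ℕ)), (∀ G ∈ 𝒢, GroupwiseDense G) ∧ ⋂₀ 𝒢 = ∅ ∧ κ = #𝒢}

end Pool.Agent.Cofin67
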