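import Pool.Agent.Cofin67.Basic
import Pool.Agent.Cofin67.DefsA

/-!
Facts on the bounding, dominating and groupwise density numbers.
-/

namespace Pool.Agent.Cofin67

open Set Cardinal Ordinal

theorem EvLe.trans {f g h : ℕ → ℕ} (h1 : EvLe f g) (h2 : EvLe g h) : EvLe f h := by
  obtain ⟨N, hN⟩ := h1
  obtain ⟨M, hM⟩ := h2
  exact ⟨max N M, fun n hn => (hN n (le_trans (le_max_left _ _) hn)).trans
    (hM n (le_trans (le_max_right _ _) hn))⟩

theorem EvLe.of_le {f g : ℕ → ℕ} (h : ∀ n, f n ≤ g n) : EvLe f g := ⟨0, fun n _ => h n⟩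

theorem EvLe.max {f g h : ℕ → ℕ} (h1 : EvLe f h) (h2 : EvLe g h) :
    EvLe (fun n => Max.max (f n) (g n)) h := by
  obtain ⟨N, hN⟩ := h1
  obtain ⟨M, hM⟩ := h2
  exact ⟨Max.max N M, fun n hn => max_le (hN n (le_trans (le_max_left _ _) hn))
    (hM n (le_trans (le_max_right _ _) hn))⟩

/-- Countably many functions have a common bound. -/
theorem exists_bound (f : ℕ → ℕ → ℕ) : ∃ g : ℕ → ℕ, ∀ n, EvLe (f n) g := by
  refine ⟨fun k => (Finset.range (k + 1)).sup (fun n => f n k), fun n => ⟨n, fun k hk => ?_⟩⟩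
  exact Finset.le_sup (f := fun n => f n k) (Finset.mem_range.mpr (Nat.lt_succ_of_le hk))

theorem unbounded_univ : ¬ ∃ g, ∀ f ∈ (Set.univ : Set (ℕ → ℕ)), EvLe f g := by
  rintro ⟨g, hg⟩
  obtain ⟨N, hN⟩ := hg (fun n => g n + 1) (Set.mem_univ _)
  have := hN N le_rfl
  simp at this

theorem bNum_mem : ∃ B : Set (ℕ → ℕ), (¬ ∃ g, ∀ f ∈ B, EvLe f g) ∧ bNum = #B :=
  csInf_mem (s := {κ : Cardinal.{0} | ∃ B : Set (ℕ → ℕ), (¬ ∃ g, ∀ f ∈ B, EvLe f g) ∧ κ = #B})
    ⟨#(Set.univ : Set (ℕ → ℕ)), Set.univ, unbounded_univ, rfl⟩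

theorem bounded_of_lt {B : Set (ℕ → ℕ)} (hB : #B < bNum) : ∃ g, ∀ f ∈ B, EvLe f g := by
  by_contra hcon
  have : bNum ≤ #B := csInf_le' ⟨B, hcon, rfl⟩
  exact absurd hB (not_lt.mpr this)

theorem dNum_mem : ∃ D : Set (ℕ → ℕ), (∀ f, ∃ g ∈ D, EvLe f g) ∧ dNum = #D :=
  csInf_mem (s := {κ : Cardinal.{0} | ∃ D : Set (ℕ → ℕ), (∀ f, ∃ g ∈ D, EvLe f g) ∧ κ = #D})
    ⟨#(Set.univ : Set (ℕ → ℕ)), Set.univ, fun f => ⟨f, Set.mem_univ _, EvLe.of_le (fun _ => le_rfl)⟩,
      rfl⟩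

theorem gNum_le {𝒢 : Set (Set (Set ℕ))} (h : ∀ G ∈ 𝒢, GroupwiseDense G) (h' : ⋂₀ 𝒢 = ∅) :
    gNum ≤ #𝒢 := csInf_le' ⟨𝒢, h, h', rfl⟩

/-- The next element of `A` at or after `n`. -/
noncomputable def next (A : Set ℕ) (n : ℕ) : ℕ := sInf {m | m ∈ A ∧ n ≤ m}

theorem next_spec {A : Set ℕ} (hA : A.Infinite) (n : ℕ) : next A n ∈ A ∧ n ≤ next A n := by
  have hne : {m | m ∈ A ∧ n ≤ m}.Nonempty := by
    obtain ⟨m, hm, hnm⟩ := hA.exists_gt n
    exact ⟨m, hm, hnm.le⟩
  exact Nat.sInf_mem hne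

theorem next_le {A : Set ℕ} {n m : ℕ} (hm : m ∈ A) (hnm : n ≤ m) : next A n ≤ m :=
  Nat.sInf_le ⟨hm, hnm⟩

theorem next_evLe {A B : Set ℕ} (hB : B.Infinite) (h : (B \ A).Finite) :
    EvLe (next A) (next B) := by
  obtain ⟨N, hN⟩ := h.bddAbove
  refine ⟨N + 1, fun n hn => ?_⟩
  obtain ⟨h1, h2⟩ := next_spec hB n
  refine next_le ?_ h2
  by_contra hcon
  have := hN ⟨h1, hcon⟩
  omega

/-- Coarsening: two families of intervals whose `next` functions jointly dominate `h`. -/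
theorem coarsen (i : ℕ → ℕ) (hi : StrictMono i) (h0 : i 0 = 0) (h : ℕ → ℕ) :
    ∃ K : Fin 3 → Set ℕ, (∀ r, (K r).Infinite) ∧
      ∀ n, ∃ r, h n ≤ next {m | ∃ k ∈ K r, i k ≤ m ∧ m < i (k + 1)} n := by
  -- monotone majorant of h
  set H : ℕ → ℕ := fun n => (Finset.range (n + 1)).sup h with hH
  have hHmono : Monotone H := fun a b hab =>
    Finset.sup_mono (Finset.range_mono (Nat.succ_le_succ hab))
  have hHle : ∀ n, h n ≤ H n := fun n =>
    Finset.le_sup (f := h) (Finset.mem_range.mpr (Nat.lt_succ_self n))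
  -- the sequence
  set k : ℕ → ℕ := fun j => Nat.rec 0 (fun _ p => p + 1 + H (i p)) j with hk
  have hk0 : k 0 = 0 := rfl
  have hks : ∀ j, k (j + 1) = k j + 1 + H (i (k j)) := fun j => rfl
  have hkm : StrictMono k := strictMono_nat_of_lt_succ (fun j => by rw [hks]; omega)
  have hlt : ∀ j, H (i (k j)) < i (k (j + 1)) := fun j => by
    have h1 : k (j + 1) ≤ i (k (j + 1)) := hi.le_apply
    have h2 := hks j
    omega
  refine ⟨fun r => {p | ∃ j, p = k j ∧ j % 3 = r.val}, ?_, ?_⟩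
  · intro r
    refine Set.infinite_of_injective_forall_mem (f := fun j : ℕ => k (3 * j + r.val)) ?_ ?_
    · intro a b hab
      have := hkm.injective hab
      omega
    · intro j
      exact ⟨3 * j + r.val, rfl, by have := r.isLt; omega⟩
  · intro n
    -- locate n between i (k j) and i (k (j+1))
    have hex : ∃ j, n < i (k (j + 1)) := by
      refine ⟨n, ?_⟩
      have h1 : n + 1 ≤ k (n + 1) := hkm.le_apply
      have h2 : k (n + 1) ≤ i (k (n + 1)) := hi.le_apply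
      omega
    classical
    set j := Nat.find hex with hj
    have hj1 : n < i (k (j + 1)) := Nat.find_spec hex
    have hj2 : i (k j) ≤ n := by
      rcases Nat.eq_zero_or_pos j with hz | hp
      · rw [hz, hk0, h0]; exact Nat.zero_le _
      · have := Nat.find_min hex (m := j - 1) (by omega)
        have h3 : j - 1 + 1 = j := by omega
        rw [h3] at this
        exact not_lt.mp this
    refine ⟨⟨(j + 2) % 3, Nat.mod_lt _ (by norm_num)⟩, ?_⟩
    set Y : Set ℕ := {m | ∃ p ∈ {p | ∃ l, p = k l ∧ l % 3 = (j + 2) % 3}, i p ≤ m ∧ m < i (p + 1)}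
      with hY
    have hYinf : Y.Infinite := by
      refine Set.infinite_of_injective_forall_mem (f := fun t : ℕ => i (k (3 * t + (j + 2) % 3))) ?_ ?_
      · intro a b hab
        have h1 := hkm.injective (hi.injective hab)
        omega
      · intro t
        exact ⟨k (3 * t + (j + 2) % 3), ⟨3 * t + (j + 2) % 3, rfl, by omega⟩, le_rfl,
          hi (Nat.lt_succ_self _)⟩
    obtain ⟨⟨p, ⟨l, hpl, hl⟩, hp1, hp2⟩, hn⟩ := next_spec hYinf n
    have hlj : j + 2 ≤ l := by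
      by_contra hcon
      have hl' : l + 1 ≤ j := by omega
      have h1 : i (p + 1) ≤ i (k j) := by
        apply hi.monotone
        rw [hpl]
        have : k l < k j := hkm (by omega)
        omega
      omega
    have h1 : i (k (j + 2)) ≤ i p := by
      rw [hpl]; exact hi.monotone (hkm.monotone hlj)
    have h2 := hlt (j + 1)
    have h3 : H n ≤ H (i (k (j + 1))) := hHmono hj1.le
    have h4 := hHle n
    show h n ≤ next Y n
    have h5 : k (j + 1 + 1) = k (j + 2) := rfl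
    rw [h5] at h2
    omega

end Pool.Agent.Cofin67
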