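import Pool.Agent.Cofin67.Inv

/-!
Part (a): a Borel sigma-ideal whose cofinStar is the bounding number and whose cofinMinus
lies between the groupwise density number and the dominating number.
-/

namespace Pool.Agent.Cofin67

open Set Cardinal Ordinal

/-- The `n`-th row of `x` is zero from `N` on. -/
def W (f : ℕ → ℕ) : Set (ℕ → Bool) :=
  {x | (∃ N, ∀ n, N ≤ n → ∀ m, x (Nat.pair n m) = false) ∨
    ∀ N, ∃ n, N ≤ n ∧ ∃ m, m ≤ f n ∧ x (Nat.pair n m) = true}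

/-- The sigma-ideal with base `W f`. -/
def ID : Set (Set (ℕ → Bool)) := {A | ∃ f, A ⊆ W f}

theorem W_mono {f g : ℕ → ℕ} (h : EvLe f g) : W f ⊆ W g := by
  obtain ⟨N, hN⟩ := h
  rintro x (hx | hx)
  · exact Or.inl hx
  · refine Or.inr fun M => ?_
    obtain ⟨n, hn, m, hm, hxm⟩ := hx (max N M)
    exact ⟨n, (le_max_right _ _).trans hn, m, hm.trans (hN n ((le_max_left _ _).trans hn)), hxm⟩

/-- The point with ones exactly at the places `(n, h n)`, `n ∈ S`. -/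
noncomputable def pt (S : Set ℕ) (h : ℕ → ℕ) : ℕ → Bool := by
  classical
  exact fun t => decide ((Nat.unpair t).1 ∈ S ∧ (Nat.unpair t).2 = h (Nat.unpair t).1)

theorem pt_true {S : Set ℕ} {h : ℕ → ℕ} {n m : ℕ} :
    pt S h (Nat.pair n m) = true ↔ n ∈ S ∧ m = h n := by
  simp [pt]

theorem pt_mem_W {S : Set ℕ} (hS : S.Infinite) {h f : ℕ → ℕ}
    : pt S h ∈ W f ↔ ∀ N, ∃ n, N ≤ n ∧ n ∈ S ∧ h n ≤ f n := by
  constructor
  · rintro (⟨N, hN⟩ | hx)
    · exfalso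
      obtain ⟨n, hn, hNn⟩ := hS.exists_gt N
      have h1 := hN n hNn.le (h n)
      have h2 : pt S h (Nat.pair n (h n)) = true := pt_true.mpr ⟨hn, rfl⟩
      rw [h1] at h2
      exact absurd h2 (by decide)
    · intro N
      obtain ⟨n, hn, m, hm, hxm⟩ := hx N
      obtain ⟨h1, h2⟩ := pt_true.mp hxm
      exact ⟨n, hn, h1, by rw [← h2]; exact hm⟩
  · intro hx
    right
    intro N
    obtain ⟨n, hn, hnS, hle⟩ := hx N
    exact ⟨n, hn, h n, hle, pt_true.mpr ⟨hnS, rfl⟩⟩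

theorem not_evLe {f g : ℕ → ℕ} (h : ¬ EvLe f g) : {n | g n < f n}.Infinite := by
  intro hfin
  apply h
  obtain ⟨N, hN⟩ := hfin.bddAbove
  refine ⟨N + 1, fun n hn => ?_⟩
  by_contra hcon
  have := hN (show n ∈ {n | g n < f n} from not_le.mp hcon)
  omega

theorem evLe_of_W_subset {f g : ℕ → ℕ} (h : W f ⊆ W g) : EvLe f g := by
  by_contra hcon
  have hS := not_evLe hcon
  have h1 : pt {n | g n < f n} f ∈ W f := (pt_mem_W hS).mpr (fun N => by
    obtain ⟨n, hn, hNn⟩ := hS.exists_gt N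
    exact ⟨n, hNn.le, hn, le_rfl⟩)
  have h2 := (pt_mem_W hS).mp (h h1) 0
  obtain ⟨n, -, hn, hle⟩ := h2
  exact absurd hle (not_le.mpr hn)

theorem W_max_subset (f g : ℕ → ℕ) : W (fun n => max (f n) (g n)) ⊆ W f ∪ W g := by
  rintro x (hx | hx)
  · exact Or.inl (Or.inl hx)
  · by_cases h1 : ∀ N, ∃ n, N ≤ n ∧ ∃ m, m ≤ f n ∧ x (Nat.pair n m) = true
    · exact Or.inl (Or.inr h1)
    · right; right
      push Not at h1
      obtain ⟨N₀, hN₀⟩ := h1
      intro N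
      obtain ⟨n, hn, m, hm, hxm⟩ := hx (max N₀ N)
      refine ⟨n, (le_max_right _ _).trans hn, m, ?_, hxm⟩
      rcases le_max_iff.mp hm with h | h
      · exact absurd hxm (by
          have := hN₀ n ((le_max_left _ _).trans hn) m h
          simpa using this)
      · exact h

theorem ID_sigma : IsSigmaIdeal ID := by
  refine ⟨⟨fun _ => 0, Set.empty_subset _⟩, ?_, ?_⟩
  · rintro A ⟨f, hf⟩ B hB
    exact ⟨f, hB.trans hf⟩
  · intro A hA
    choose f hf using hA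
    obtain ⟨g, hg⟩ := exists_bound f
    exact ⟨g, Set.iUnion_subset fun n => (hf n).trans (W_mono (hg n))⟩

theorem W_borel (f : ℕ → ℕ) : @MeasurableSet (ℕ → Bool) (borel (ℕ → Bool)) (W f) := by
  let _ : MeasurableSpace (ℕ → Bool) := borel (ℕ → Bool)
  have _ : BorelSpace (ℕ → Bool) := ⟨rfl⟩
  have hb : ∀ (t : ℕ) (b : Bool), MeasurableSet {x : ℕ → Bool | x t = b} := by
    intro t b
    have hc : Continuous (fun x : ℕ → Bool => x t) := continuous_apply t
    exact ((isOpen_discrete {b}).preimage hc).measurableSet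
  have : W f = (⋃ N : ℕ, ⋂ n : ℕ, ⋂ _ : N ≤ n, ⋂ m : ℕ, {x : ℕ → Bool | x (Nat.pair n m) = false}) ∪
      ⋂ N : ℕ, ⋃ n : ℕ, ⋃ _ : N ≤ n, ⋃ m : ℕ, ⋃ _ : m ≤ f n,
        {x : ℕ → Bool | x (Nat.pair n m) = true} := by
    ext x
    simp [W]
  rw [this]
  refine MeasurableSet.union ?_ ?_
  · exact MeasurableSet.iUnion fun N => MeasurableSet.iInter fun n => MeasurableSet.iInter fun _ =>
      MeasurableSet.iInter fun m => hb _ _
  · exact MeasurableSet.iInter fun N => MeasurableSet.iUnion fun n => MeasurableSet.iUnion fun _ =>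
      MeasurableSet.iUnion fun m => MeasurableSet.iUnion fun _ => hb _ _

theorem ID_borel : IsBorelSigmaIdeal ID :=
  ⟨ID_sigma, fun _ ⟨f, hf⟩ => ⟨W f, ⟨f, subset_rfl⟩, hf, W_borel f⟩⟩

theorem W_mem_ID (f : ℕ → ℕ) : W f ∈ ID := ⟨f, subset_rfl⟩

theorem ID_singleton (x : ℕ → Bool) : {x} ∈ ID := by
  classical
  refine ⟨fun n => if h : ∃ m, x (Nat.pair n m) = true then Nat.find h else 0, ?_⟩
  rw [Set.singleton_subset_iff]
  by_cases h : ∃ N, ∀ n, N ≤ n → ∀ m, x (Nat.pair n m) = false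
  · exact Or.inl h
  · right
    push Not at h
    intro N
    obtain ⟨n, hn, m, hm⟩ := h N
    have hex : ∃ m, x (Nat.pair n m) = true := ⟨m, by simpa using hm⟩
    refine ⟨n, hn, Nat.find hex, ?_, Nat.find_spec hex⟩
    simp only [hex, dif_pos]
    exact le_rfl

theorem ID_univ : Set.univ ∉ ID := by
  rintro ⟨f, hf⟩
  have h1 : pt Set.univ (fun n => f n + 1) ∈ W f := hf (Set.mem_univ _)
  obtain ⟨n, -, -, h⟩ := (pt_mem_W Set.infinite_univ).mp h1 0
  omega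

theorem ID_sUnion : ⋃₀ ID ∉ ID := by
  have : ⋃₀ ID = Set.univ := by
    ext x
    simp only [mem_sUnion, mem_univ, iff_true]
    exact ⟨{x}, ID_singleton x, rfl⟩
  rw [this]; exact ID_univ

/-- The additivity of `ID` is the bounding number. -/
theorem add_ID : add ID = bNum := by
  apply le_antisymm
  · obtain ⟨B, hB, hBc⟩ := bNum_mem
    rw [hBc]
    have h1 : W '' B ⊆ ID := by
      rintro _ ⟨f, -, rfl⟩
      exact W_mem_ID f
    have h2 : ⋃₀ (W '' B) ∉ ID := by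
      rintro ⟨g, hg⟩
      apply hB
      refine ⟨g, fun f hf => evLe_of_W_subset ?_⟩
      have hmem : W f ∈ W '' B := ⟨f, hf, rfl⟩
      exact (Set.subset_sUnion_of_mem hmem).trans hg
    have h3 : add ID ≤ #(W '' B) := csInf_le' ⟨W '' B, h1, h2, rfl⟩
    exact h3.trans Cardinal.mk_image_le
  · obtain ⟨𝒜, h1, h2, h3⟩ := add_mem ID_sUnion
    rw [h3]
    by_contra hcon
    have hlt := not_le.mp hcon
    apply h2
    have hch : ∀ A : 𝒜, ∃ f, (A : Set (ℕ → Bool)) ⊆ W f := fun A => h1 A.2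
    choose f hf using hch
    have hr : #(Set.range f) < bNum := lt_of_le_of_lt Cardinal.mk_range_le hlt
    obtain ⟨g, hg⟩ := bounded_of_lt hr
    refine ⟨g, Set.sUnion_subset fun A hA => ?_⟩
    exact (hf ⟨A, hA⟩).trans (W_mono (hg _ ⟨_, rfl⟩))

theorem aleph0_le_bNum : ℵ₀ ≤ bNum := by
  rw [← add_ID]
  exact (aleph0_lt_add ID_sigma ID_sUnion).le

/-- A proper ideal `J ⊂ ID` omits some `W h`. -/
theorem exists_W_not_mem {J : Set (Set (ℕ → Bool))} (hJ : Hereditary J) (h : J ⊂ ID) :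
    ∃ h, W h ∉ J := by
  obtain ⟨A, ⟨f, hf⟩, hA'⟩ := Set.exists_of_ssubset h
  exact ⟨f, fun hW => hA' (hJ _ hW _ hf)⟩

/-- Groupwise density of the family attached to a proper ideal. -/
theorem groupwise {J : Set (Set (ℕ → Bool))} (hJ : IsIdeal J) (hlt : J ⊂ ID) :
    GroupwiseDense {A : Set ℕ | A.Infinite ∧ W (next A) ∉ J} := by
  refine ⟨fun A hA => hA.1, ?_, ?_⟩
  · rintro A ⟨hA, hWA⟩ B hB hBA
    exact ⟨hB, fun h => hWA (hJ.2.1 _ h _ (W_mono (next_evLe hB hBA)))⟩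
  · intro i hi h0
    obtain ⟨h, hh⟩ := exists_W_not_mem hJ.2.1 hlt
    obtain ⟨K, hK, hKn⟩ := coarsen i hi h0 h
    by_contra hcon
    push Not at hcon
    have hinf : ∀ r, {m | ∃ k ∈ K r, i k ≤ m ∧ m < i (k + 1)}.Infinite := by
      intro r
      refine Set.Infinite.mono ?_ ((hK r).image hi.injective.injOn)
      rintro _ ⟨k, hk, rfl⟩
      exact ⟨k, hk, le_rfl, hi (Nat.lt_succ_self k)⟩
    have hW : ∀ r, W (next {m | ∃ k ∈ K r, i k ≤ m ∧ m < i (k + 1)}) ∈ J := by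
      intro r
      by_contra hnot
      exact hcon (K r) (hK r) ⟨hinf r, hnot⟩
    set p : Fin 3 → ℕ → ℕ := fun r => next {m | ∃ k ∈ K r, i k ≤ m ∧ m < i (k + 1)} with hp
    apply hh
    have h1 := hJ.2.2 _ (hJ.2.2 _ (hW 0) _ (hW 1)) _ (hW 2)
    refine hJ.2.1 _ h1 _ ?_
    have h2 : W h ⊆ W (fun n => max (max (p 0 n) (p 1 n)) (p 2 n)) := by
      apply W_mono
      apply EvLe.of_le
      intro n
      obtain ⟨r, hr⟩ := hKn n
      fin_cases r
      · exact le_trans hr (le_trans (le_max_left _ _) (le_max_left _ _))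
      · exact le_trans hr (le_trans (le_max_right _ _) (le_max_left _ _))
      · exact le_trans hr (le_max_right _ _)
    refine h2.trans ((W_max_subset _ _).trans ?_)
    exact Set.union_subset_union_left _ (W_max_subset _ _)

/-- Any chain of ideals for `ID` has length at least the groupwise density number. -/
theorem gNum_le_of_chain {γ : Ordinal.{0}} {F : Ordinal.{0} → Set (Set (ℕ → Bool))}
    (hγ : Order.IsSuccLimit γ) (hch : IsChainOf ID γ F) (hF : ∀ α < γ, IsIdeal (F α)) :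
    gNum.ord ≤ γ := by
  rw [Cardinal.ord_le]
  set G : Ordinal.{0} → Set (Set ℕ) := fun α => {A : Set ℕ | A.Infinite ∧ W (next A) ∉ F α}
  refine le_trans (gNum_le (𝒢 := G '' Set.Iio γ) ?_ ?_) (mk_image_Iio_le G γ)
  · rintro _ ⟨α, hα, rfl⟩
    exact groupwise (hF α hα) (hch.ne hγ hα)
  · ext A
    simp only [mem_empty_iff_false, iff_false]
    intro hA
    have h1 : W (next A) ∈ ID := W_mem_ID _
    rw [hch.2] at h1
    obtain ⟨α, hα, hWα⟩ := h1
    exact (hA (G α) ⟨α, hα, rfl⟩).2 hWα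

theorem gNum_le_cofinMinus : ((gNum.ord : Ordinal.{0}) : WithTop Ordinal.{0}) ≤ cofinMinus ID := by
  apply le_sInf
  rintro _ ⟨γ, rfl, hγ, F, hch, hF⟩
  exact WithTop.coe_le_coe.mpr (gNum_le_of_chain hγ hch hF)


theorem cofinMinus_le_cofin {X : Type} (I : Set (Set X)) : cofinMinus I ≤ cofin I := by
  apply le_sInf
  rintro _ ⟨γ, rfl, hγ, F, hch, hF⟩
  exact csInf_le (OrderBot.bddBelow _) ⟨γ, rfl, hγ, F, hch, fun α hα => (hF α hα).isIdeal⟩

/-- The sigma-ideal generated by the sets `W f` in `J`. -/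
def sig (J : Set (Set (ℕ → Bool))) : Set (Set (ℕ → Bool)) :=
  {A | ∃ f : ℕ → ℕ → ℕ, (∀ n, W (f n) ∈ J) ∧ A ⊆ ⋃ n, W (f n)}

theorem sig_sigma {J : Set (Set (ℕ → Bool))} (hJ : IsIdeal J) {f₀ : ℕ → ℕ} (h₀ : W f₀ ∈ J) :
    IsSigmaIdeal (sig J) := by
  have := hJ
  refine ⟨⟨fun _ => f₀, fun _ => h₀, Set.empty_subset _⟩, ?_, ?_⟩
  · rintro A ⟨f, hf, hA⟩ B hB
    exact ⟨f, hf, hB.trans hA⟩
  · intro A hA
    choose f hf hAf using hA
    refine ⟨fun t => f (Nat.unpair t).1 (Nat.unpair t).2, fun t => hf _ _, ?_⟩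
    refine Set.iUnion_subset fun n => (hAf n).trans ?_
    refine Set.iUnion_subset fun m => ?_
    have h := Set.subset_iUnion (fun t => W (f (Nat.unpair t).1 (Nat.unpair t).2)) (Nat.pair n m)
    simpa using h

theorem sig_mono {J J' : Set (Set (ℕ → Bool))} (h : J ⊆ J') : sig J ⊆ sig J' := by
  rintro A ⟨f, hf, hA⟩
  exact ⟨f, fun n => h (hf n), hA⟩

theorem sig_sub_ID (J : Set (Set (ℕ → Bool))) : sig J ⊆ ID := by
  rintro A ⟨f, -, hA⟩
  exact ID_sigma.2.1 _ (ID_sigma.2.2 _ (fun n => W_mem_ID (f n))) _ hA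

/-- Diagonalisation: a proper ideal generates a proper sigma-ideal. -/
theorem W_not_mem_sig {J : Set (Set (ℕ → Bool))} (hJ : IsIdeal J) {h : ℕ → ℕ} (hh : W h ∉ J) :
    W h ∉ sig J := by
  rintro ⟨f, hf, hsub⟩
  -- running maxima
  have hg : ∃ g : ℕ → ℕ → ℕ, (∀ n, W (g n) ∈ J) ∧ ∀ n m, m ≤ n → ∀ k, f m k ≤ g n k := by
    refine ⟨fun n => Nat.rec (f 0) (fun j p => fun k => max (p k) (f (j + 1) k)) n, ?_, ?_⟩
    · intro n
      induction n with
      | zero => exact hf 0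
      | succ n ih => exact hJ.2.1 _ (hJ.2.2 _ ih _ (hf (n + 1))) _ (W_max_subset _ _)
    · intro n
      induction n with
      | zero =>
        intro m hm k
        obtain rfl : m = 0 := by omega
        exact le_rfl
      | succ n ih =>
        intro m hm k
        rcases Nat.lt_or_ge m (n + 1) with h1 | h1
        · exact le_trans (ih m (by omega) k) (le_max_left _ _)
        · obtain rfl : m = n + 1 := by omega
          exact le_max_right _ _
  obtain ⟨g, hgJ, hgf⟩ := hg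
  have hinf : ∀ n, {k | g n k < h k}.Infinite := fun n =>
    not_evLe (fun hle => hh (hJ.2.1 _ (hgJ n) _ (W_mono hle)))
  -- choose the places
  have hstep : ∀ n p : ℕ, ∃ k, p < k ∧ g n k < h k := by
    intro n p
    obtain ⟨k, hk, hpk⟩ := (hinf n).exists_gt p
    exact ⟨k, hpk, hk⟩
  choose nx hnx1 hnx2 using hstep
  set k : ℕ → ℕ := fun j => Nat.rec (nx 0 0) (fun j p => nx (j + 1) p) j with hk
  have hkm : StrictMono k := strictMono_nat_of_lt_succ (fun j => hnx1 (j + 1) (k j))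
  have hkg : ∀ j, g j (k j) < h (k j) := by
    intro j
    cases j with
    | zero => exact hnx2 0 0
    | succ j => exact hnx2 (j + 1) (k j)
  have hSinf : (Set.range k).Infinite := Set.infinite_range_of_injective hkm.injective
  have hx : pt (Set.range k) h ∈ W h := (pt_mem_W hSinf).mpr (fun N =>
    ⟨k N, hkm.le_apply, ⟨N, rfl⟩, le_rfl⟩)
  obtain ⟨n, hn⟩ := Set.mem_iUnion.mp (hsub hx)
  obtain ⟨m, hm, ⟨j, rfl⟩, hle⟩ := (pt_mem_W hSinf).mp hn (k n)
  have hnj : n ≤ j := hkm.le_iff_le.mp hm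
  have h1 := hgf j n hnj (k j)
  have h2 := hkg j
  omega

theorem cofin_ID_eq : cofin ID = cofinMinus ID := by
  apply le_antisymm _ (cofinMinus_le_cofin ID)
  apply le_sInf
  rintro _ ⟨γ, rfl, hγ, F, hch, hF⟩
  -- start the chain where some W f is present
  have h0 : W (fun _ => 0) ∈ ID := W_mem_ID _
  rw [hch.2] at h0
  obtain ⟨α₀, hα₀, hW₀⟩ := h0
  set G : Ordinal.{0} → Set (Set (ℕ → Bool)) := fun α => sig (F (max α₀ α)) with hG
  have hlt : ∀ α < γ, max α₀ α < γ := fun α hα => max_lt hα₀ hα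
  have c1 : ∀ α β, α ≤ β → β < γ → G α ⊆ G β := fun α β hαβ hβ =>
    sig_mono (hch.mono (max_le_max le_rfl hαβ) (hlt β hβ))
  have c2 : ∀ α < γ, G α ≠ ID := by
    intro α hα h
    obtain ⟨f, hf⟩ := exists_W_not_mem (hF _ (hlt α hα)).2.1 (hch.ne hγ (hlt α hα))
    apply W_not_mem_sig (hF _ (hlt α hα)) hf
    have h2 : W f ∈ ID := W_mem_ID f
    rw [← h] at h2
    exact h2
  have c3 : ID = {A | ∃ α < γ, A ∈ G α} := by
    apply le_antisymm
    · rintro A ⟨f, hf⟩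
      have h1 : W f ∈ ID := W_mem_ID f
      rw [hch.2] at h1
      obtain ⟨α, hα, hWα⟩ := h1
      refine ⟨α, hα, fun _ => f, fun _ => hch.mono (le_max_right _ _) (hlt α hα) hWα, ?_⟩
      exact hf.trans (Set.subset_iUnion (fun _ : ℕ => W f) 0)
    · rintro A ⟨α, -, hA⟩
      exact sig_sub_ID _ hA
  obtain ⟨γ', hγ', hlim', F', hch', hF', -⟩ := thin ID γ G c1 c2 c3 hγ.bot_lt
  refine le_trans (csInf_le (OrderBot.bddBelow _) (a := (γ' : WithTop Ordinal.{0})) ?_)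
    (WithTop.coe_le_coe.mpr hγ')
  refine ⟨γ', rfl, hlim', F', hch', ?_⟩
  intro α hα
  obtain ⟨β, hβ, hβF⟩ := hF' α hα
  rw [hβF]
  exact sig_sigma (hF _ (hlt β hβ)) (hch.mono (le_max_left _ _) (hlt β hβ) hW₀)

/-- Comparison modulo a fixed nonprincipal ultrafilter. -/
def ULe (f g : ℕ → ℕ) : Prop := ∀ᶠ n in (Filter.hyperfilter ℕ : Filter ℕ), f n ≤ g n

theorem ULe.trans {f g h : ℕ → ℕ} (h1 : ULe f g) (h2 : ULe g h) : ULe f h := by
  filter_upwards [h1, h2] with n a b using a.trans b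

theorem ULe.of_evLe {f g : ℕ → ℕ} (h : EvLe f g) : ULe f g := by
  obtain ⟨N, hN⟩ := h
  have h1 : ∀ᶠ n in Filter.cofinite, f n ≤ g n := by
    rw [Nat.cofinite_eq_atTop]
    exact Filter.eventually_atTop.mpr ⟨N, hN⟩
  exact Filter.hyperfilter_le_cofinite h1

theorem ULe.total (f g : ℕ → ℕ) : ULe f g ∨ ULe g f := by
  have h : ∀ᶠ n in (Filter.hyperfilter ℕ : Filter ℕ), f n ≤ g n ∨ g n ≤ f n :=
    Filter.Eventually.of_forall (fun n => le_total _ _)
  exact Ultrafilter.eventually_or.mp h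

theorem ULe.max {f g h : ℕ → ℕ} (h1 : ULe f h) (h2 : ULe g h) :
    ULe (fun n => Max.max (f n) (g n)) h := by
  filter_upwards [h1, h2] with n a b using max_le a b

theorem not_ULe_succ (f : ℕ → ℕ) : ¬ ULe (fun n => f n + 1) f := by
  intro h
  obtain ⟨n, hn⟩ := Filter.Eventually.exists h
  have hn' : f n + 1 ≤ f n := hn
  omega

theorem cofinMinus_ID_le : cofinMinus ID ≤ ((dNum.ord : Ordinal.{0}) : WithTop Ordinal.{0}) := by
  obtain ⟨D, hD, hDc⟩ := dNum_mem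
  obtain ⟨d, hd1, hd2⟩ := exists_enum D
  rw [← hDc] at hd1 hd2
  set R : Set Ordinal.{0} := {γ | ∀ f, ∃ β < γ, ULe f (d β)} with hR
  have hRD : dNum.ord ∈ R := by
    intro f
    obtain ⟨g, hg, hfg⟩ := hD f
    obtain ⟨α, hα, rfl⟩ := hd2 g hg
    exact ⟨α, hα, ULe.of_evLe hfg⟩
  obtain ⟨γ, hγR, hγmin⟩ := WellFounded.has_min (wellFounded_lt (α := Ordinal.{0})) R ⟨_, hRD⟩
  have hγle : γ ≤ dNum.ord := not_lt.mp (hγmin _ hRD)
  have hγ0 : 0 < γ := by
    obtain ⟨β, hβ, -⟩ := hγR (fun _ => 0)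
    exact lt_of_le_of_lt zero_le hβ
  set F : Ordinal.{0} → Set (Set (ℕ → Bool)) :=
    fun α => {A | ∃ f, A ⊆ W f ∧ ∃ β ≤ α, ULe f (d β)} with hF
  have c1 : ∀ α β, α ≤ β → β < γ → F α ⊆ F β := by
    rintro α β hαβ _ A ⟨f, hf, δ, hδ, hfd⟩
    exact ⟨f, hf, δ, hδ.trans hαβ, hfd⟩
  have c2 : ∀ α < γ, F α ≠ ID := by
    intro α hα h
    apply hγmin α _ hα
    intro f
    have h1 : W (fun n => max (f n) (d α n) + 1) ∈ ID := W_mem_ID _
    rw [← h] at h1
    obtain ⟨f', hf', β, hβ, hfβ⟩ := h1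
    have h2 : ULe (fun n => max (f n) (d α n) + 1) (d β) :=
      (ULe.of_evLe (evLe_of_W_subset hf')).trans hfβ
    rcases hβ.lt_or_eq with h3 | h3
    · exact ⟨β, h3, (ULe.of_evLe (EvLe.of_le fun n =>
        (le_max_left _ _).trans (Nat.le_succ _))).trans h2⟩
    · exfalso
      rw [h3] at h2
      apply not_ULe_succ (d α)
      exact (ULe.of_evLe (EvLe.of_le fun n => Nat.succ_le_succ (le_max_right _ _))).trans h2
  have c3 : ID = {A | ∃ α < γ, A ∈ F α} := by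
    apply le_antisymm
    · rintro A ⟨f, hf⟩
      obtain ⟨β, hβ, hfβ⟩ := hγR f
      exact ⟨β, hβ, f, hf, β, le_rfl, hfβ⟩
    · rintro A ⟨α, -, f, hf, -⟩
      exact ⟨f, hf⟩
  obtain ⟨γ', hγ', hlim', F', hch', hF', -⟩ := thin ID γ F c1 c2 c3 hγ0
  refine le_trans (csInf_le (OrderBot.bddBelow _) (a := (γ' : WithTop Ordinal.{0})) ?_)
    (WithTop.coe_le_coe.mpr (hγ'.trans hγle))
  refine ⟨γ', rfl, hlim', F', hch', ?_⟩
  intro α hα
  obtain ⟨β, hβ, hβF⟩ := hF' α hα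
  rw [hβF]
  refine ⟨⟨fun _ => 0, Set.empty_subset _, 0, zero_le, ULe.of_evLe (EvLe.of_le fun n =>
    Nat.zero_le _)⟩, ?_, ?_⟩
  · rintro A ⟨f, hf, δ, hδ, hfδ⟩ B hB
    exact ⟨f, hB.trans hf, δ, hδ, hfδ⟩
  · rintro A ⟨f, hf, δ, hδ, hfδ⟩ B ⟨g, hg, ε, hε, hgε⟩
    rcases ULe.total (d δ) (d ε) with h | h
    · refine ⟨fun n => max (f n) (g n), ?_, ε, hε, (hfδ.trans h).max hgε⟩
      exact Set.union_subset (hf.trans (W_mono (EvLe.of_le fun n => le_max_left _ _)))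
        (hg.trans (W_mono (EvLe.of_le fun n => le_max_right _ _)))
    · refine ⟨fun n => max (f n) (g n), ?_, δ, hδ, hfδ.max (hgε.trans h)⟩
      exact Set.union_subset (hf.trans (W_mono (EvLe.of_le fun n => le_max_left _ _)))
        (hg.trans (W_mono (EvLe.of_le fun n => le_max_right _ _)))

/-- Part (a). -/
theorem partA : ∃ I : Set (Set (ℕ → Bool)), IsBorelSigmaIdeal I ∧ (∀ x, {x} ∈ I) ∧
    Set.univ ∉ I ∧ add I = bNum ∧
    cofinStar I = ((bNum.ord : Ordinal.{0}) : WithTop Ordinal.{0}) ∧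
    ((gNum.ord : Ordinal.{0}) : WithTop Ordinal.{0}) ≤ cofinMinus I ∧
    cofin I = cofinMinus I ∧
    cofin I ≤ ((dNum.ord : Ordinal.{0}) : WithTop Ordinal.{0}) ∧
    (bNum < gNum → cofinStar I < cofinMinus I) := by
  have hstar : cofinStar ID = ((bNum.ord : Ordinal.{0}) : WithTop Ordinal.{0}) := by
    rw [cofinStar_eq_add ID_sigma.isIdeal ID_sUnion, add_ID]
  refine ⟨ID, ID_borel, ID_singleton, ID_univ, add_ID, hstar, gNum_le_cofinMinus, cofin_ID_eq,
    ?_, ?_⟩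
  · rw [cofin_ID_eq]
    exact cofinMinus_ID_le
  · intro h
    rw [hstar]
    refine lt_of_lt_of_le ?_ gNum_le_cofinMinus
    exact WithTop.coe_lt_coe.mpr (Cardinal.ord_lt_ord.mpr h)

end Pool.Agent.Cofin67
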