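import Pool.Agent.Cofin67.Basic

/-!
Part (c): adding a copy of the countable sets lowers cofin to omega one and leaves cofinPlus.
-/

namespace Pool.Agent.Cofin67

open Set Cardinal Ordinal

/-- Put the bit `b` in front of `x`. -/
def cons (b : Bool) (x : ℕ → Bool) : ℕ → Bool := fun n => if n = 0 then b else x (n - 1)

def tail (x : ℕ → Bool) : ℕ → Bool := fun n => x (n + 1)

theorem tail_cons (b : Bool) (x : ℕ → Bool) : tail (cons b x) = x := by
  funext n; simp [tail, cons]

theorem cons_zero (b : Bool) (x : ℕ → Bool) : cons b x 0 = b := by simp [cons]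

theorem cons_head_tail (x : ℕ → Bool) : cons (x 0) (tail x) = x := by
  funext n
  by_cases h : n = 0
  · subst h; simp [cons]
  · have : n - 1 + 1 = n := by omega
    simp [cons, tail, h, this]

theorem cons_inj (b : Bool) : Function.Injective (cons b) := by
  intro x y h
  have := congrArg tail h
  rwa [tail_cons, tail_cons] at this

/-- The sum of `J` on the first half of the Cantor space and the countable sets on the second. -/
def sumCountable (J : Set (Set (ℕ → Bool))) : Set (Set (ℕ → Bool)) :=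
  {A | cons false ⁻¹' A ∈ J ∧ (cons true ⁻¹' A).Countable}

theorem sumCountable_sigma {J : Set (Set (ℕ → Bool))} (hJ : IsSigmaIdeal J) :
    IsSigmaIdeal (sumCountable J) := by
  refine ⟨⟨by simpa using hJ.1, by simp⟩, ?_, ?_⟩
  · intro A hA B hB
    exact ⟨hJ.2.1 _ hA.1 _ (Set.preimage_mono hB), hA.2.mono (Set.preimage_mono hB)⟩
  · intro A hA
    refine ⟨?_, ?_⟩
    · rw [Set.preimage_iUnion]
      exact hJ.2.2 _ (fun n => (hA n).1)
    · rw [Set.preimage_iUnion]
      exact Set.countable_iUnion (fun n => (hA n).2)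

theorem cons_preimage_image_same (b : Bool) (B : Set (ℕ → Bool)) :
    cons b ⁻¹' (cons b '' B) = B := Set.preimage_image_eq B (cons_inj b)

theorem cons_preimage_image_diff {b c : Bool} (h : b ≠ c) (B : Set (ℕ → Bool)) :
    cons c ⁻¹' (cons b '' B) = ∅ := by
  ext x
  simp only [mem_preimage, mem_image, mem_empty_iff_false, iff_false]
  rintro ⟨y, -, hy⟩
  apply h
  have := congrFun hy 0
  rwa [cons_zero, cons_zero] at this

theorem split_eq (A : Set (ℕ → Bool)) :
    A = cons false '' (cons false ⁻¹' A) ∪ cons true '' (cons true ⁻¹' A) := by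
  ext x
  constructor
  · intro hx
    cases hb : x 0 with
    | false =>
      left
      refine ⟨tail x, ?_, ?_⟩
      · show cons false (tail x) ∈ A
        rw [← hb, cons_head_tail]; exact hx
      · rw [← hb, cons_head_tail]
    | true =>
      right
      refine ⟨tail x, ?_, ?_⟩
      · show cons true (tail x) ∈ A
        rw [← hb, cons_head_tail]; exact hx
      · rw [← hb, cons_head_tail]
  · rintro (⟨y, hy, rfl⟩ | ⟨y, hy, rfl⟩) <;> exact hy

theorem sumCountable_image {J : Set (Set (ℕ → Bool))} {B : Set (ℕ → Bool)} :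
    cons false '' B ∈ sumCountable J ↔ B ∈ J := by
  show _ ∧ _ ↔ _
  rw [cons_preimage_image_same, cons_preimage_image_diff (by decide)]
  simp

theorem tail_continuous : Continuous tail := by
  apply continuous_pi
  intro n
  exact continuous_apply (n + 1)

theorem sumCountable_borel {J : Set (Set (ℕ → Bool))} (hJ : IsBorelSigmaIdeal J) :
    IsBorelSigmaIdeal (sumCountable J) := by
  refine ⟨sumCountable_sigma hJ.1, ?_⟩
  intro A hA
  obtain ⟨B, hB, hAB, hBm⟩ := hJ.2 _ hA.1
  refine ⟨({x | x 0 = false} ∩ tail ⁻¹' B) ∪ cons true '' (cons true ⁻¹' A), ⟨?_, ?_⟩, ?_, ?_⟩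
  · refine hJ.1.2.1 B hB _ ?_
    rintro x (hx | ⟨y, -, hy⟩)
    · have := hx.2
      rwa [mem_preimage, tail_cons] at this
    · have := congrFun hy 0
      rw [cons_zero, cons_zero] at this
      exact absurd this (by decide)
  · refine hA.2.mono ?_
    rintro x (hx | ⟨y, hy, hxy⟩)
    · have := hx.1
      simp only [mem_ofPred_eq, cons_zero] at this
      exact absurd this (by decide)
    · rw [← cons_inj true hxy]; exact hy
  · intro x hx
    cases hb : x 0 with
    | false =>
      left
      refine ⟨hb, hAB ?_⟩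
      show cons false (tail x) ∈ A
      rw [← hb, cons_head_tail]; exact hx
    | true =>
      right
      refine ⟨tail x, ?_, ?_⟩
      · show cons true (tail x) ∈ A
        rw [← hb, cons_head_tail]; exact hx
      · rw [← hb, cons_head_tail]
  · let _ : MeasurableSpace (ℕ → Bool) := borel (ℕ → Bool)
    have _ : BorelSpace (ℕ → Bool) := ⟨rfl⟩
    have h1 : MeasurableSet {x : ℕ → Bool | x 0 = false} := by
      have : IsOpen {x : ℕ → Bool | x 0 = false} := by
        have hc : Continuous (fun x : ℕ → Bool => x 0) := continuous_apply 0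
        exact (isOpen_discrete {false}).preimage hc
      exact this.measurableSet
    have h2 : MeasurableSet (tail ⁻¹' B) := tail_continuous.measurable hBm
    have h3 : MeasurableSet (cons true '' (cons true ⁻¹' A)) :=
      (hA.2.image _).measurableSet
    exact (h1.inter h2).union h3

theorem sumCountable_singleton {J : Set (Set (ℕ → Bool))} (hJ : IsSigmaIdeal J)
    (hs : ∀ x, {x} ∈ J) (x : ℕ → Bool) : {x} ∈ sumCountable J := by
  refine ⟨?_, ?_⟩
  · refine hJ.2.1 {tail x} (hs _) _ ?_
    intro y hy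
    have hy' : cons false y = x := hy
    have := congrArg tail hy'
    rw [tail_cons] at this
    exact this
  · refine (Set.countable_singleton (tail x)).mono ?_
    intro y hy
    have hy' : cons true y = x := hy
    have := congrArg tail hy'
    rw [tail_cons] at this
    exact this

theorem not_countable_univ : ¬ (Set.univ : Set (ℕ → Bool)).Countable := by
  intro h
  rw [← Cardinal.le_aleph0_iff_set_countable] at h
  rw [Cardinal.mk_univ] at h
  simp only [mk_pi, mk_fintype, Fintype.card_bool] at h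
  simp at h
  exact absurd h (not_le.mpr Cardinal.aleph0_lt_continuum)

theorem sUnion_of_singletons {J : Set (Set (ℕ → Bool))} (hs : ∀ x, {x} ∈ J) :
    ⋃₀ J = Set.univ := by
  ext x
  simp only [mem_sUnion, mem_univ, iff_true]
  exact ⟨{x}, hs x, rfl⟩

theorem univ_not_mem_sumCountable (J : Set (Set (ℕ → Bool))) : Set.univ ∉ sumCountable J := by
  intro h
  apply not_countable_univ
  have := h.2
  rwa [Set.preimage_univ] at this

/-- A set of ordinals below `ω₁` that is countable is bounded. -/
theorem countable_bdd (T : Set Ordinal.{0}) (hT : T.Countable) (hT' : ∀ β ∈ T, β < ω₁) :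
    ∃ α < ω₁, ∀ β ∈ T, β < α := by
  have := hT.to_subtype
  have h := Ordinal.iSup_lt_omega_one (α := T) (f := fun i => (i : Ordinal.{0})) (fun i => hT' _ i.2)
  refine ⟨Order.succ (⨆ i : T, (i : Ordinal.{0})), ?_, ?_⟩
  · have hlim : Order.IsSuccLimit (ω₁ : Ordinal.{0}) := by
      rw [← Cardinal.ord_aleph]
      exact isSuccLimit_ord (Cardinal.aleph0_le_aleph 1)
    exact hlim.succ_lt h
  · intro β hβ
    exact Order.lt_succ_iff.mpr (Ordinal.le_iSup (fun i : T => (i : Ordinal.{0})) ⟨β, hβ⟩)

theorem cofin_sumCountable {J : Set (Set (ℕ → Bool))} (hJ : IsSigmaIdeal J)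
    (hs : ∀ x, {x} ∈ J) : cofin (sumCountable J) = ((ω₁ : Ordinal.{0}) : WithTop Ordinal.{0}) := by
  have hsig := sumCountable_sigma hJ
  have hU : ⋃₀ (sumCountable J) ∉ sumCountable J := by
    rw [sUnion_of_singletons (sumCountable_singleton hJ hs)]
    exact univ_not_mem_sumCountable J
  apply le_antisymm
  · -- the chain
    obtain ⟨S, hS⟩ : ∃ S : Set (ℕ → Bool), #S = ℵ₁ := by
      apply Cardinal.le_mk_iff_exists_set.mp
      have : #(ℕ → Bool) = 𝔠 := by simp
      rw [this]; exact Cardinal.aleph_one_le_continuum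
    obtain ⟨x, hx1, -, hx3⟩ := exists_enum_inj S
    rw [hS, Cardinal.ord_aleph] at hx1 hx3
    have hlim : Order.IsSuccLimit (ω₁ : Ordinal.{0}) := by
      rw [← Cardinal.ord_aleph]
      exact isSuccLimit_ord (Cardinal.aleph0_le_aleph 1)
    refine csInf_le (OrderBot.bddBelow _) ?_
    refine ⟨ω₁, rfl, hlim, fun α => {A | A ∈ sumCountable J ∧ ∀ β, α ≤ β → β < ω₁ →
      cons true (x β) ∉ A}, ⟨?_, ?_⟩, ?_⟩
    · intro α β hαβ hβ
      refine (Set.ssubset_iff_of_subset ?_).mpr ⟨{cons true (x α)}, ⟨?_, ?_⟩, ?_⟩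
      · intro A hA
        exact ⟨hA.1, fun δ hδ => hA.2 δ (hαβ.le.trans hδ)⟩
      · exact sumCountable_singleton hJ hs _
      · intro δ hδ hδ1 h
        have h1 : cons true (x δ) = cons true (x α) := h
        have h2 := hx3 δ hδ1 α (hαβ.trans hβ) (cons_inj true h1)
        rw [h2] at hδ
        exact absurd hαβ (not_lt.mpr hδ)
      · intro h
        exact h.2 α le_rfl (hαβ.trans hβ) rfl
    · apply le_antisymm
      · intro A hA
        set T : Set Ordinal.{0} := {β | β < ω₁ ∧ cons true (x β) ∈ A} with hT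
        have hTc : T.Countable := by
          have : Set.InjOn x T := fun β hβ δ hδ h => hx3 β hβ.1 δ hδ.1 h
          refine Set.countable_of_injective_of_countable_image this ?_
          refine hA.2.mono ?_
          rintro _ ⟨β, hβ, rfl⟩
          exact hβ.2
        obtain ⟨α, hα, hα2⟩ := countable_bdd T hTc (fun β hβ => hβ.1)
        refine ⟨α, hα, hA, ?_⟩
        intro β hβ hβ1 h
        exact absurd (hα2 β ⟨hβ1, h⟩) (not_lt.mpr hβ)
      · rintro A ⟨α, -, hA⟩
        exact hA.1
    · intro α _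
      refine ⟨⟨hsig.1, fun _ _ _ => by simp⟩, ?_, ?_⟩
      · intro A hA B hB
        exact ⟨hsig.2.1 A hA.1 B hB, fun β h1 h2 h3 => hA.2 β h1 h2 (hB h3)⟩
      · intro A hA
        refine ⟨hsig.2.2 A (fun n => (hA n).1), ?_⟩
        intro β h1 h2 h3
        obtain ⟨n, hn⟩ := Set.mem_iUnion.mp h3
        exact (hA n).2 β h1 h2 hn
  · -- the lower bound
    apply le_sInf
    rintro _ ⟨γ, rfl, hγ, F, hch, hF⟩
    apply WithTop.coe_le_coe.mpr
    have h1 := add_le_of_chain hγ hch (fun α hα => (hF α hα).2.1)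
    refine le_trans ?_ h1
    rw [← Cardinal.ord_aleph]
    apply Cardinal.ord_le_ord.mpr
    rw [← Cardinal.succ_aleph0]
    exact Order.succ_le_of_lt (aleph0_lt_add hsig hU)


/-- A sigma-ideal with all singletons holds all countable sets. -/
theorem countable_mem {X : Type} {J : Set (Set X)} (hJ : IsSigmaIdeal J)
    (hs : ∀ x, {x} ∈ J) {A : Set X} (hA : A.Countable) : A ∈ J := by
  rcases A.eq_empty_or_nonempty with he | hne
  · rw [he]; exact hJ.1
  · obtain ⟨f, hf⟩ := hA.exists_eq_range hne
    have h := hJ.2.2 (fun n => {f n}) (fun n => hs _)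
    refine hJ.2.1 _ h _ ?_
    rw [hf]
    rintro _ ⟨n, rfl⟩
    exact Set.mem_iUnion.mpr ⟨n, rfl⟩

theorem cofinPlus_sumCountable {J : Set (Set (ℕ → Bool))} :
    cofinPlus (sumCountable J) = cofinPlus J := by
  unfold cofinPlus
  congr 1
  ext δ
  constructor
  · rintro ⟨γ, hδ, hγ, F, hch, hF, hF0⟩
    have hsF : ∀ α < γ, ∀ x, {x} ∈ F α := fun α hα x => hch.mono zero_le hα (hF0 x)
    refine ⟨γ, hδ, hγ, fun α => {B | cons false '' B ∈ F α}, ⟨?_, ?_⟩, ?_, ?_⟩
    · intro α β hαβ hβ
      have hα := hαβ.trans hβ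
      refine (Set.ssubset_iff_of_subset ?_).mpr ?_
      · intro B hB
        exact (hch.1 α β hαβ hβ).1 hB
      · obtain ⟨A, hA, hA'⟩ := Set.exists_of_ssubset (hch.1 α β hαβ hβ)
        refine ⟨cons false ⁻¹' A, ?_, ?_⟩
        · refine (hF β hβ).2.1 A hA _ ?_
          rintro _ ⟨y, hy, rfl⟩
          exact hy
        · intro h
          have h' : cons false '' (cons false ⁻¹' A) ∈ F α := h
          apply hA'
          have hAI : A ∈ sumCountable J := by
            rw [hch.2]; exact ⟨β, hβ, hA⟩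
          have hc : cons true '' (cons true ⁻¹' A) ∈ F α :=
            countable_mem (hF α hα) (hsF α hα) (hAI.2.image _)
          have := (hF α hα).isIdeal.2.2 _ h' _ hc
          rwa [← split_eq] at this
    · ext B
      constructor
      · intro hB
        have : cons false '' B ∈ sumCountable J := sumCountable_image.mpr hB
        rw [hch.2] at this
        exact this
      · rintro ⟨α, hα, hB⟩
        have : cons false '' B ∈ sumCountable J := by
          rw [hch.2]; exact ⟨α, hα, hB⟩
        exact sumCountable_image.mp this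
    · intro α hα
      refine ⟨?_, ?_, ?_⟩
      · show cons false '' ∅ ∈ F α
        rw [Set.image_empty]; exact (hF α hα).1
      · intro A hA B hB
        exact (hF α hα).2.1 _ hA _ (Set.image_mono hB)
      · intro A hA
        show cons false '' (⋃ n, A n) ∈ F α
        rw [Set.image_iUnion]
        exact (hF α hα).2.2 _ hA
    · intro x
      show cons false '' {x} ∈ F 0
      rw [Set.image_singleton]
      exact hF0 _
  · rintro ⟨γ, hδ, hγ, F, hch, hF, hF0⟩
    refine ⟨γ, hδ, hγ, fun α => sumCountable (F α), ⟨?_, ?_⟩, ?_, ?_⟩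
    · intro α β hαβ hβ
      refine (Set.ssubset_iff_of_subset ?_).mpr ?_
      · intro B hB
        exact ⟨(hch.1 α β hαβ hβ).1 hB.1, hB.2⟩
      · obtain ⟨A, hA, hA'⟩ := Set.exists_of_ssubset (hch.1 α β hαβ hβ)
        exact ⟨cons false '' A, sumCountable_image.mpr hA, fun h => hA' (sumCountable_image.mp h)⟩
    · ext B
      constructor
      · intro hB
        have := hB.1
        rw [hch.2] at this
        obtain ⟨α, hα, h⟩ := this
        exact ⟨α, hα, h, hB.2⟩
      · rintro ⟨α, hα, hB⟩
        refine ⟨?_, hB.2⟩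
        rw [hch.2]; exact ⟨α, hα, hB.1⟩
    · intro α hα
      exact sumCountable_sigma (hF α hα)
    · intro x
      have h0 : (0 : Ordinal.{0}) < γ := hγ.bot_lt
      exact sumCountable_singleton (hF 0 h0) hF0 x

/-- The ideal of countable sets. -/
theorem countable_sets_borel :
    IsBorelSigmaIdeal {A : Set (ℕ → Bool) | A.Countable} := by
  refine ⟨⟨by simp, ?_, ?_⟩, ?_⟩
  · intro A hA B hB
    exact hA.mono hB
  · intro A hA
    exact Set.countable_iUnion hA
  · intro A hA
    refine ⟨A, hA, subset_rfl, ?_⟩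
    let _ : MeasurableSpace (ℕ → Bool) := borel (ℕ → Bool)
    have _ : BorelSpace (ℕ → Bool) := ⟨rfl⟩
    exact Set.Countable.measurableSet hA

theorem cofinPlus_countable {X : Type} : cofinPlus {A : Set X | A.Countable} = ⊤ := by
  unfold cofinPlus
  rw [show {δ : WithTop Ordinal.{0} | ∃ γ : Ordinal.{0}, δ = (γ : WithTop Ordinal.{0}) ∧
    Order.IsSuccLimit γ ∧ ∃ F : Ordinal.{0} → Set (Set X),
      IsChainOf {A : Set X | A.Countable} γ F ∧ (∀ α < γ, IsSigmaIdeal (F α)) ∧
      ∀ x : X, {x} ∈ F 0} = ∅ from ?_]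
  · exact sInf_empty
  · ext δ
    simp only [mem_empty_iff_false, iff_false]
    rintro ⟨γ, hδ, hγ, F, hch, hF, hF0⟩
    have h0 : (0 : Ordinal.{0}) < γ := hγ.bot_lt
    have hss := hch.ne hγ h0
    apply hss.2
    intro A hA
    exact countable_mem (hF 0 h0) hF0 hA

theorem add_le_cofinPlus {X : Type} (I : Set (Set X)) :
    ((add I).ord : WithTop Ordinal.{0}) ≤ cofinPlus I := by
  apply le_sInf
  rintro _ ⟨γ, rfl, hγ, F, hch, hF, -⟩
  exact WithTop.coe_le_coe.mpr (add_le_of_chain hγ hch (fun α hα => (hF α hα).2.1))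

/-- Part (c): every Borel sigma-ideal `J` with all singletons has a companion `I` with
`cofin I = ω₁` and `cofinPlus I = cofinPlus J`; and there is a Borel sigma-ideal `I` with
`cofin I = ω₁` and `cofinPlus I = ∞`. -/
theorem partC :
    (∀ J : Set (Set (ℕ → Bool)), IsBorelSigmaIdeal J → (∀ x, {x} ∈ J) →
      ∃ I : Set (Set (ℕ → Bool)), IsBorelSigmaIdeal I ∧ (∀ x, {x} ∈ I) ∧ Set.univ ∉ I ∧
        cofin I = ((ω₁ : Ordinal.{0}) : WithTop Ordinal.{0}) ∧ cofinPlus I = cofinPlus J ∧
        (ℵ₁ < add J → cofin I < cofinPlus I)) ∧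
    ∃ I : Set (Set (ℕ → Bool)), IsBorelSigmaIdeal I ∧ (∀ x, {x} ∈ I) ∧ Set.univ ∉ I ∧
        cofin I = ((ω₁ : Ordinal.{0}) : WithTop Ordinal.{0}) ∧ cofinPlus I = ⊤ := by
  have h1 : ∀ J : Set (Set (ℕ → Bool)), IsBorelSigmaIdeal J → (∀ x, {x} ∈ J) →
      ∃ I : Set (Set (ℕ → Bool)), IsBorelSigmaIdeal I ∧ (∀ x, {x} ∈ I) ∧ Set.univ ∉ I ∧
        cofin I = ((ω₁ : Ordinal.{0}) : WithTop Ordinal.{0}) ∧ cofinPlus I = cofinPlus J ∧
        (ℵ₁ < add J → cofin I < cofinPlus I) := by
    intro J hJ hs
    refine ⟨sumCountable J, sumCountable_borel hJ, sumCountable_singleton hJ.1 hs,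
      univ_not_mem_sumCountable J, cofin_sumCountable hJ.1 hs, cofinPlus_sumCountable, ?_⟩
    intro h
    rw [cofin_sumCountable hJ.1 hs, cofinPlus_sumCountable]
    refine lt_of_lt_of_le ?_ (add_le_cofinPlus J)
    apply WithTop.coe_lt_coe.mpr
    rw [← Cardinal.ord_aleph]
    exact Cardinal.ord_lt_ord.mpr h
  refine ⟨h1, ?_⟩
  obtain ⟨I, h2, h3, h4, h5, h6, -⟩ := h1 _ countable_sets_borel (fun x => Set.countable_singleton x)
  rw [cofinPlus_countable] at h6
  exact ⟨I, h2, h3, h4, h5, h6⟩

end Pool.Agent.Cofin67
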